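import Pool.Agent.TH826.UH.Final
set_option autoImplicit false

/-!
Two-sided estimate of the regulator of `{z, x - c'}` on a loop whose `x`-coordinate stays in a disc.
-/

namespace Pool.Agent.Y775.UG

open MeasureTheory

open scoped Real

open Pool.Agent.TH826.MK (circ norm_circ contDiff_circ)

open Pool.Agent.TH826.UH (pr NZ nz_circ ld_circ)

/-- A function with values in a disc that does not contain the point `c'`. -/
theorem pr_eq_of_disc {R : ℝ} (hR : 1 < R) {X : ℝ → ℂ} (hX : ContDiff ℝ 2 X)
    (hper : ∀ s, X (s + 1) = X s) {c c' : ℂ} {ρ : ℝ} (hdisc : ∀ s, ‖X s - c‖ < ρ)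
    (hfar : ρ ≤ ‖c - c'‖) : NZ (fun s => X s - c') ∧
      pr (circ R) (fun s => X s - c') = -(2 * π * ∫ s in (0 : ℝ)..1, Real.log ‖X s - c'‖) := by
  have hR0 : 0 < R := one_pos.trans hR
  have hρ : 0 < ρ := (norm_nonneg _).trans_lt (hdisc 0)
  have hcc : c - c' ≠ 0 := by
    rw [← norm_pos_iff]
    linarith
  have hnorm : ∀ s, 0 < ‖X s - c'‖ := by
    intro s
    have h1 : ‖c - c'‖ ≤ ‖X s - c'‖ + ‖X s - c‖ := by
      have : c - c' = (X s - c') - (X s - c) := by ring
      rw [this]
      exact norm_sub_le _ _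
    linarith [hdisc s]
  have nX : NZ fun s => X s - c' :=
    ⟨hX.sub contDiff_const, fun s => by
      rw [← norm_pos_iff]
      exact hnorm s⟩
  refine ⟨nX, ?_⟩
  set w : ℝ → ℂ := fun s => 1 + (X s - c) / (c - c') with hw
  have hws : ∀ s, w s ∈ Complex.slitPlane := by
    intro s
    refine Complex.mem_slitPlane_iff.2 (Or.inl ?_)
    have h1 : ‖(X s - c) / (c - c')‖ < 1 := by
      rw [norm_div, div_lt_one (norm_pos_iff.2 hcc)]
      linarith [hdisc s]
    have h2 := Complex.abs_re_le_norm ((X s - c) / (c - c'))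
    have h3 := (abs_le.1 h2).1
    rw [hw]
    simp only [Complex.add_re, Complex.one_re]
    linarith
  have hXd : ∀ s, HasDerivAt X (deriv X s) s := fun s =>
    (hX.differentiable (by norm_num) s).hasDerivAt
  have hlog : ∀ s, HasDerivAt (fun s => Complex.log (w s))
      (deriv (fun s => X s - c') s / (X s - c')) s := by
    intro s
    have h1 : HasDerivAt w (deriv X s / (c - c')) s := by
      rw [hw]
      exact (((hXd s).sub_const c).div_const (c - c')).const_add 1
    have h2 := h1.clog_real (hws s)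
    refine h2.congr_deriv ?_
    rw [((hXd s).sub_const c').deriv]
    have h3 : w s = (X s - c') / (c - c') := by
      rw [hw]
      simp only
      field_simp
      ring
    rw [h3]
    have := nX.ne_zero s
    field_simp
  have hwind : ∫ s in (0 : ℝ)..1, (deriv (fun s => X s - c') s / (X s - c')) = 0 := by
    rw [intervalIntegral.integral_eq_sub_of_hasDerivAt (fun s _ => hlog s)
      (nX.cont_ld.intervalIntegrable _ _)]
    have h1 : X 1 = X 0 := by
      have := hper 0
      rwa [zero_add] at this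
    simp only [hw, h1, sub_self]
  have hwim : ∫ s in (0 : ℝ)..1, (deriv (fun s => X s - c') s / (X s - c')).im = 0 := by
    have h1 := Complex.imCLM.intervalIntegral_comp_comm
      (nX.cont_ld.intervalIntegrable (μ := volume) 0 1)
    rw [hwind, map_zero] at h1
    exact h1
  unfold pr
  simp only [ld_circ hR0, norm_circ hR0.le]
  have i1 : IntervalIntegrable (fun s => Real.log R *
      (deriv (fun s => X s - c') s / (X s - c')).im) volume 0 1 :=
    (continuous_const.mul nX.cont_im).intervalIntegrable _ _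
  have i2 : IntervalIntegrable (fun s => Real.log ‖X s - c'‖ * (2 * π)) volume 0 1 :=
    (nX.cont_log.mul continuous_const).intervalIntegrable _ _
  rw [intervalIntegral.integral_sub i1 i2,
    intervalIntegral.integral_const_mul, hwim, mul_zero, zero_sub,
    intervalIntegral.integral_mul_const, mul_comm]

/-- The regulator is `-2π ℓ` up to `2π E` if `|log |X - c'| - ℓ| ≤ E`. -/
theorem abs_pr_add_le {R : ℝ} (hR : 1 < R) {X : ℝ → ℂ} (hX : ContDiff ℝ 2 X)
    (hper : ∀ s, X (s + 1) = X s) {c c' : ℂ} {ρ : ℝ} (hdisc : ∀ s, ‖X s - c‖ < ρ)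
    (hfar : ρ ≤ ‖c - c'‖) {l E : ℝ} (hl : ∀ s, |Real.log ‖X s - c'‖ - l| ≤ E) :
    |pr (circ R) (fun s => X s - c') + 2 * π * l| ≤ 2 * π * E := by
  obtain ⟨nX, h⟩ := pr_eq_of_disc hR hX hper hdisc hfar
  have hint : IntervalIntegrable (fun s => Real.log ‖X s - c'‖) volume 0 1 :=
    nX.cont_log.intervalIntegrable _ _
  have h1 : (∫ s in (0 : ℝ)..1, Real.log ‖X s - c'‖) - l =
      ∫ s in (0 : ℝ)..1, (Real.log ‖X s - c'‖ - l) := by
    rw [intervalIntegral.integral_sub hint (by simp), intervalIntegral.integral_const]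
    simp
  have h2 : |∫ s in (0 : ℝ)..1, (Real.log ‖X s - c'‖ - l)| ≤ E := by
    have h3 := intervalIntegral.norm_integral_le_of_norm_le_const (a := (0 : ℝ)) (b := 1)
      (C := E) (f := fun s => Real.log ‖X s - c'‖ - l) (fun s _ => hl s)
    simpa using h3
  rw [h]
  have h4 : -(2 * π * ∫ s in (0 : ℝ)..1, Real.log ‖X s - c'‖) + 2 * π * l =
      -(2 * π) * ((∫ s in (0 : ℝ)..1, Real.log ‖X s - c'‖) - l) := by ring
  rw [h4, abs_mul, abs_neg, abs_of_pos (by positivity : (0 : ℝ) < 2 * π), h1]
  exact mul_le_mul_of_nonneg_left h2 (by positivity)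

end Pool.Agent.Y775.UG
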