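import Pool.Agent.Y775.UG.Geo
set_option autoImplicit false

/-!
The regulators of `{z, (x - a_i) / x}` on the loops around the points `a_j`, `j ≥ 1`, up to bounded
errors.
-/

namespace Pool.Agent.Y775.UG

open Polynomial Metric

open scoped Real

open Pool.Agent.TH826.MK (circ norm_circ contDiff_circ circ_add_one)

open Pool.Agent.TH826.UH (Sepd exists_radius pr NZ nz_circ pr_circ pr_const pr_mul pr_prod
  eval_map_sub eval_fam)

/-- The leading terms: `Λ(i, j) = j - max(i, j)` for `i ≠ j`, `Λ(j, j) = ∑_k (max(k, j) - k)`. -/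
noncomputable def Lam {g : ℕ} (i j : Fin (g + 1)) : ℝ :=
  if i = j then ∑ k : Fin (g + 1), (((max (k : ℕ) j : ℕ) : ℝ) - (k : ℕ))
  else ((j : ℕ) : ℝ) - ((max (i : ℕ) j : ℕ) : ℝ)

theorem abs_log_le {A x : ℝ} (hA : 0 < A) (h1 : A / 4 ≤ x) (h2 : x ≤ 4 * A) :
    |Real.log x - Real.log A| ≤ Real.log 4 := by
  have hx : 0 < x := by linarith
  rw [abs_le]
  constructor
  · have h3 := Real.log_le_log (by positivity) h1
    rw [Real.log_div hA.ne' (by norm_num)] at h3
    linarith
  · have h3 := Real.log_le_log hx h2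
    rw [Real.log_mul (by norm_num) hA.ne'] at h3
    linarith

variable {g : ℕ} {q : ℝ} {a : Fin (g + 1) → ℂ}

theorem exists_fun (hq : (2 : ℝ) ^ (g + 6) ≤ q) (ha : ∀ j : Fin (g + 1), ‖a j‖ = q ^ (j : ℕ))
    {t ζ lam : ℂ} (hζ : ‖ζ‖ = 1) (ht : t = ζ + ζ⁻¹) (hlam : 1 ≤ ‖lam‖ * ∏ i, ‖a i‖) {F : ℂ[X]}
    (hF : F = C t + C lam * ∏ i, (X - C (a i))) :
    ∃ R : ℝ, 1 < R ∧ ∀ j : Fin (g + 1), j ≠ 0 → ∃ Y : ℝ → ℂ, ContDiff ℝ 2 Y ∧
      (∀ s, Y (s + 1) = Y s) ∧ (∀ s, F.eval (Y s) = circ R s + (circ R s)⁻¹) ∧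
      ∀ i, |(pr (circ R) (fun s => Y s - a i) - pr (circ R) (fun s => Y s - 0)) -
        2 * π * (Real.log q * Lam i j)| ≤
          2 * π * (|Real.log (‖lam‖ * ∏ i, ‖a i‖)| + (g + 2) * Real.log 4) := by
  have hq64 := two_pow_le hq
  have hq0 : 0 < q := by linarith
  have ht2 : ‖t‖ ≤ 2 := by
    rw [ht]
    refine (norm_add_le _ _).trans ?_
    rw [norm_inv, hζ]
    norm_num
  have hlam0 : lam ≠ 0 := by
    rintro rfl
    rw [norm_zero, zero_mul] at hlam
    linarith
  obtain ⟨η, H⟩ := exists_sepd hq ha ht2 hlam hF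
  obtain ⟨x, han, hdisc, hprod, -⟩ := H.exists_branches
  obtain ⟨R, hR, hRη⟩ := exists_radius H.eta
  have hR0 : 0 < R := one_pos.trans hR
  have hz := nz_circ hR0
  set u : ℝ → ℂ := fun t => circ R t + (circ R t)⁻¹ with hu
  have hucd : ContDiff ℝ 2 u := (contDiff_circ R).add ((contDiff_circ R).inv hz.ne_zero)
  have hub : ∀ t, u t ∈ ball (0 : ℂ) (2 + η) := by
    intro t
    rw [mem_ball_zero_iff]
    refine (norm_add_le _ _).trans_lt ?_
    rw [norm_inv, norm_circ hR0.le]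
    exact hRη
  have hper : ∀ t, u (t + 1) = u t := fun t => by
    simp only [hu, circ_add_one]
  set ρ : ℝ := 2 ^ (g + 4) with hρ
  have hρq : 4 * ρ ≤ q := by
    have h3 : (2 : ℝ) ^ (g + 6) = 4 * 2 ^ (g + 4) := by
      rw [show g + 6 = g + 4 + 2 by ring, pow_add _ (g + 4) 2]
      norm_num
      ring
    rw [hρ, ← h3]
    exact hq
  refine ⟨R, hR, fun j hj => ?_⟩
  have hj1 : 1 ≤ (j : ℕ) := by
    have : (j : ℕ) ≠ 0 := fun h => hj (Fin.ext h)
    omega
  set Y : ℝ → ℂ := fun t => x j (u t) with hY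
  have hYcd : ContDiff ℝ 2 Y := by
    rw [contDiff_iff_contDiffAt]
    intro t
    exact ((han j _ (hub t)).contDiffAt.restrict_scalars ℝ).comp t hucd.contDiffAt
  have hYper : ∀ t, Y (t + 1) = Y t := fun t => by
    simp only [hY, hper]
  have hYd : ∀ s, ‖Y s - a j‖ < ρ := fun s => hdisc j _ (hub s)
  have hval : ∀ s, F.eval (Y s) = u s := by
    intro s
    have h1 := congrArg (Polynomial.eval (Y s)) (hprod _ (hub s))
    rw [eval_sub, eval_C, eval_mul, eval_prod, Finset.prod_eq_zero (Finset.mem_univ j)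
      (by simp [hY]), mul_zero] at h1
    exact sub_eq_zero.1 h1
  refine ⟨Y, hYcd, hYper, hval, ?_⟩
  -- the zeros of `F - t`
  have hne : ∀ s i, Y s - a i ≠ 0 := by
    intro s i h
    have h1 := hval s
    rw [sub_eq_zero.1 h, eval_fam hF, Finset.prod_eq_zero (Finset.mem_univ i) (sub_self _),
      mul_zero, add_zero, ht] at h1
    have h2 := hz.ne_zero s
    have hζ0 : ζ ≠ 0 := fun h0 => by rw [h0, norm_zero] at hζ; exact zero_ne_one hζ
    have h3 : (circ R s - ζ) * (circ R s - ζ⁻¹) = 0 := by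
      have h4 : u s = circ R s + (circ R s)⁻¹ := rfl
      rw [h4] at h1
      have h5 : circ R s * (circ R s)⁻¹ = 1 := mul_inv_cancel₀ h2
      have h6 : ζ * ζ⁻¹ = 1 := mul_inv_cancel₀ hζ0
      linear_combination (-circ R s) * h1 - h5 + h6
    rcases mul_eq_zero.1 h3 with h4 | h4
    · have h5 := congrArg norm (sub_eq_zero.1 h4)
      rw [norm_circ hR0.le, hζ] at h5
      exact hR.ne' h5
    · have h5 := congrArg norm (sub_eq_zero.1 h4)
      rw [norm_circ hR0.le, norm_inv, hζ, inv_one] at h5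
      exact hR.ne' h5
  have nY : ∀ i, NZ fun s => Y s - a i := fun i => ⟨hYcd.sub contDiff_const, fun s => hne s i⟩
  set I : Fin (g + 1) → ℝ := fun i => pr (circ R) (fun s => Y s - a i) with hI
  have hsum : ∑ i, I i = 2 * π * Real.log ‖lam‖ := by
    have hc : NZ fun _ : ℝ => lam := ⟨contDiff_const, fun _ => hlam0⟩
    have h1 := pr_mul hz hc (NZ.prod Finset.univ (fun i => nY i))
    have h2 : pr (circ R) (fun s => lam * ∏ i, (Y s - a i)) = 0 := by
      rw [← pr_circ hR hζ]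
      congr 1
      funext s
      have h3 := hval s
      rw [eval_fam hF] at h3
      have h4 : u s = circ R s + (circ R s)⁻¹ := rfl
      rw [← h4, ← ht, ← h3]
      ring
    rw [h2, pr_const hR0, pr_prod Finset.univ hz (fun i => nY i)] at h1
    linarith
  have hlogq : ∀ k : ℕ, Real.log (q ^ k) = (k : ℝ) * Real.log q := fun k => Real.log_pow q k
  -- the points `a_i`, `i ≠ j`
  have hI1 : ∀ i, i ≠ j → |I i + 2 * π * (((max (i : ℕ) j : ℕ) : ℝ) * Real.log q)| ≤
      2 * π * Real.log 4 := by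
    intro i hij
    have hb := norm_sub_bounds hq64 ha hij
    have hM := le_pow_of_one_le hq64 (one_le_max hij)
    set A : ℝ := q ^ (max (i : ℕ) j) with hA
    have hA0 : 0 < A := by positivity
    refine abs_pr_add_le hR hYcd hYper hYd (c' := a i) ?_ (fun s => ?_)
    · rw [norm_sub_rev]
      linarith [hb.1]
    · rw [← hlogq, ← hA]
      have h1 : ‖a i - a j‖ ≤ ‖Y s - a i‖ + ‖Y s - a j‖ := by
        have h := norm_sub_le (Y s - a j) (Y s - a i)
        rw [sub_sub_sub_cancel_left] at h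
        linarith
      have h2 : ‖Y s - a i‖ ≤ ‖Y s - a j‖ + ‖a i - a j‖ := by
        have h := norm_sub_le (Y s - a j) (a i - a j)
        rwa [sub_sub_sub_cancel_right] at h
      have h3 := hYd s
      refine abs_log_le hA0 ?_ ?_
      · linarith [hb.1]
      · linarith [hb.2]
  -- the point `0`
  have hI0 : |pr (circ R) (fun s => Y s - 0) + 2 * π * (((j : ℕ) : ℝ) * Real.log q)| ≤
      2 * π * Real.log 4 := by
    have hM := le_pow_of_one_le hq64 hj1
    set A : ℝ := q ^ (j : ℕ) with hA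
    have hA0 : 0 < A := by positivity
    refine abs_pr_add_le hR hYcd hYper hYd (c' := 0) ?_ (fun s => ?_)
    · rw [sub_zero, ha, ← hA]
      linarith
    · rw [← hlogq, ← hA, sub_zero]
      have h1 : ‖a j‖ ≤ ‖Y s‖ + ‖Y s - a j‖ := by
        have h := norm_sub_le (Y s) (Y s - a j)
        rwa [sub_sub_cancel] at h
      have h2 : ‖Y s‖ ≤ ‖Y s - a j‖ + ‖a j‖ := by
        have h := norm_add_le (Y s - a j) (a j)
        rwa [sub_add_cancel] at h
      rw [ha, ← hA] at h1 h2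
      have h3 := hYd s
      refine abs_log_le hA0 ?_ ?_
      · linarith
      · linarith
  have hlog4 : 0 ≤ Real.log 4 := Real.log_nonneg (by norm_num)
  have hpi := Real.pi_pos
  set c0 : ℝ := |Real.log (‖lam‖ * ∏ i, ‖a i‖)| with hc0
  have hc00 : 0 ≤ c0 := abs_nonneg _
  intro i
  by_cases hij : i = j
  · subst hij
    have hlamn : 0 < ‖lam‖ := norm_pos_iff.2 hlam0
    have haprod : (∏ k, ‖a k‖) ≠ 0 := Finset.prod_ne_zero_iff.2 fun k _ => by
      rw [ha]
      positivity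
    have hloglam : Real.log ‖lam‖ = Real.log (‖lam‖ * ∏ k, ‖a k‖) -
        ∑ k : Fin (g + 1), ((k : ℕ) : ℝ) * Real.log q := by
      rw [Real.log_mul hlamn.ne' haprod, Real.log_prod fun k _ => by
        rw [ha]
        positivity]
      have : ∀ k : Fin (g + 1), Real.log ‖a k‖ = ((k : ℕ) : ℝ) * Real.log q := fun k => by
        rw [ha, hlogq]
      simp only [this]
      ring
    have hIj : I i = 2 * π * Real.log ‖lam‖ - ∑ k ∈ Finset.univ.erase i, I k := by
      rw [← hsum, ← Finset.add_sum_erase Finset.univ I (Finset.mem_univ i)]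
      ring
    have hLam : Lam i i = ∑ k : Fin (g + 1), (((max (k : ℕ) i : ℕ) : ℝ) - (k : ℕ)) := if_pos rfl
    have hkey : (I i - pr (circ R) (fun s => Y s - 0)) - 2 * π * (Real.log q * Lam i i) =
        2 * π * Real.log (‖lam‖ * ∏ k, ‖a k‖) -
        (∑ k ∈ Finset.univ.erase i, (I k + 2 * π * (((max (k : ℕ) i : ℕ) : ℝ) * Real.log q))) -
        (pr (circ R) (fun s => Y s - 0) + 2 * π * (((i : ℕ) : ℝ) * Real.log q)) +
        2 * π * (Real.log q * ((∑ k ∈ Finset.univ.erase i, ((max (k : ℕ) i : ℕ) : ℝ)) + (i : ℕ) -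
          (∑ k : Fin (g + 1), ((k : ℕ) : ℝ)) - Lam i i)) := by
      rw [hIj, hloglam, Finset.sum_add_distrib, ← Finset.sum_mul]
      have e1 : ∑ k ∈ Finset.univ.erase i, 2 * π * (((max (k : ℕ) i : ℕ) : ℝ) * Real.log q) =
          2 * π * Real.log q * ∑ k ∈ Finset.univ.erase i, ((max (k : ℕ) i : ℕ) : ℝ) := by
        rw [Finset.mul_sum]
        exact Finset.sum_congr rfl fun k _ => by ring
      rw [e1]
      ring
    have hzero : (∑ k ∈ Finset.univ.erase i, ((max (k : ℕ) i : ℕ) : ℝ)) + (i : ℕ) -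
        (∑ k : Fin (g + 1), ((k : ℕ) : ℝ)) - Lam i i = 0 := by
      rw [hLam, Finset.sum_sub_distrib]
      have e1 := Finset.add_sum_erase Finset.univ
        (fun k : Fin (g + 1) => ((max (k : ℕ) i : ℕ) : ℝ)) (Finset.mem_univ i)
      simp only [max_self] at e1
      linarith
    rw [hzero, mul_zero, mul_zero, add_zero] at hkey
    have hsumle : |∑ k ∈ Finset.univ.erase i, (I k + 2 * π * (((max (k : ℕ) i : ℕ) : ℝ) *
        Real.log q))| ≤ (g : ℝ) * (2 * π * Real.log 4) := by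
      refine (Finset.abs_sum_le_sum_abs _ _).trans ?_
      have h1 : ∀ k ∈ Finset.univ.erase i, |I k + 2 * π * (((max (k : ℕ) i : ℕ) : ℝ) *
          Real.log q)| ≤ 2 * π * Real.log 4 := fun k hk => hI1 k (Finset.ne_of_mem_erase hk)
      refine (Finset.sum_le_card_nsmul _ _ _ h1).trans ?_
      rw [Finset.card_erase_of_mem (Finset.mem_univ i), Finset.card_univ, Fintype.card_fin,
        Nat.add_sub_cancel, nsmul_eq_mul]
    have h0 : |2 * π * Real.log (‖lam‖ * ∏ k, ‖a k‖)| = 2 * π * c0 := by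
      rw [abs_mul, abs_of_pos (by positivity : (0 : ℝ) < 2 * π)]
    show |(I i - pr (circ R) (fun s => Y s - 0)) - 2 * π * (Real.log q * Lam i i)| ≤ _
    rw [hkey]
    refine (abs_sub _ _).trans ?_
    refine (add_le_add (abs_sub _ _) le_rfl).trans ?_
    rw [h0]
    have : 2 * π * (c0 + (g + 2) * Real.log 4) = 2 * π * c0 + g * (2 * π * Real.log 4) +
        2 * π * Real.log 4 + 2 * π * Real.log 4 := by ring
    have hp : 0 ≤ 2 * π * Real.log 4 := by positivity
    linarith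
  · have hLam : Lam i j = ((j : ℕ) : ℝ) - ((max (i : ℕ) j : ℕ) : ℝ) := if_neg hij
    have hkey : (I i - pr (circ R) (fun s => Y s - 0)) - 2 * π * (Real.log q * Lam i j) =
        (I i + 2 * π * (((max (i : ℕ) j : ℕ) : ℝ) * Real.log q)) -
        (pr (circ R) (fun s => Y s - 0) + 2 * π * (((j : ℕ) : ℝ) * Real.log q)) := by
      rw [hLam]
      ring
    show |(I i - pr (circ R) (fun s => Y s - 0)) - 2 * π * (Real.log q * Lam i j)| ≤ _
    rw [hkey]
    refine (abs_sub _ _).trans ?_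
    have h1 := hI1 i hij
    have : 2 * π * (c0 + (g + 2) * Real.log 4) = 2 * π * c0 + g * (2 * π * Real.log 4) +
        2 * π * Real.log 4 + 2 * π * Real.log 4 := by ring
    have hp : 0 ≤ 2 * π * Real.log 4 := by positivity
    have hp2 : 0 ≤ 2 * π * c0 := by positivity
    have hp3 : 0 ≤ (g : ℝ) * (2 * π * Real.log 4) := by positivity
    linarith

end Pool.Agent.Y775.UG
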