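import Pool.Agent.Y775.UG.Loops
set_option autoImplicit false

/-!
The determinant of the regulators of the `g + 1` symbols on `g` loops over one place and one loop
over another place.
-/

namespace Pool.Agent.Y775.UG

open Polynomial

open scoped Real

open Pool.Agent.TH826.MK (KQ symb Torus)

open Pool.Agent.TH826.HD (PRing POpen pent toP pcst)

open Pool.Agent.TH826.UH (Sepd smooth_of_sepd)

section det

/-- A matrix close to a large multiple of an invertible matrix is invertible. -/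
theorem eventually_det_ne_zero {k : ℕ} (T : Fin k → Fin k → ℝ) (hT : (Matrix.of T).det ≠ 0)
    (C : ℝ) : ∃ m₀ : ℕ, ∀ m : ℕ, m₀ ≤ m → ∀ M : Fin k → Fin k → ℝ,
      (∀ i j, |M i j - m * T i j| ≤ C) → (Matrix.of M).det ≠ 0 := by
  have hcont : Continuous fun M : Fin k → Fin k → ℝ => (Matrix.of M).det :=
    Continuous.matrix_det continuous_id
  have hopen : IsOpen ((fun M : Fin k → Fin k → ℝ => (Matrix.of M).det) ⁻¹' {(0 : ℝ)}ᶜ) :=
    isOpen_compl_singleton.preimage hcont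
  obtain ⟨δ, hδ, hball⟩ := Metric.isOpen_iff.1 hopen T hT
  obtain ⟨m₀, hm₀⟩ := exists_nat_gt (|C| / δ)
  refine ⟨m₀ + 1, fun m hm M hM h0 => ?_⟩
  have hm1 : (0 : ℝ) < m := by
    have : 0 < m := by omega
    exact_mod_cast this
  have hmC : |C| / δ < m := hm₀.trans_le (by exact_mod_cast (by omega : m₀ ≤ m))
  have hmem : (fun i j => M i j / m) ∈ Metric.ball T δ := by
    rw [Metric.mem_ball, dist_pi_lt_iff hδ]
    intro i
    rw [dist_pi_lt_iff hδ]
    intro j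
    rw [Real.dist_eq]
    have e : M i j / m - T i j = (M i j - m * T i j) / m := by
      field_simp
    rw [e, abs_div, abs_of_pos hm1, div_lt_iff₀ hm1]
    rw [div_lt_iff₀ hδ] at hmC
    have h1 := (hM i j).trans (le_abs_self C)
    linarith
  have h1 : (Matrix.of fun i j => M i j / m).det ≠ 0 := hball hmem
  apply h1
  have e : (Matrix.of fun i j => M i j / (m : ℝ)) = ((m : ℝ)⁻¹) • Matrix.of M := by
    ext i j
    simp only [Matrix.of_apply, Matrix.smul_apply, smul_eq_mul]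
    rw [div_eq_inv_mul]
  rw [e, Matrix.det_smul, h0, mul_zero]

end det

section limit

variable {g : ℕ}

/-- The matrix of the leading terms: the first row belongs to the second place. -/
noncomputable def Tm (g : ℕ) (x y : ℝ) (r i : Fin (g + 1)) : ℝ :=
  if r = 0 then 2 * π * (y * Lam (Fin.revPerm i) (Fin.last g)) else 2 * π * (x * Lam i r)

theorem lam_of_lt {i j : Fin (g + 1)} (h : i < j) : Lam i j = 0 := by
  have h1 : (i : ℕ) < j := h
  rw [Lam, if_neg h.ne, max_eq_right h1.le, sub_self]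

theorem lam_self_pos {j : Fin (g + 1)} (hj : j ≠ 0) : 0 < Lam j j := by
  have hj1 : 0 < (j : ℕ) := Nat.pos_of_ne_zero fun h => hj (Fin.ext h)
  rw [Lam, if_pos rfl]
  refine Finset.sum_pos' (fun k _ => ?_) ⟨0, Finset.mem_univ _, ?_⟩
  · rw [sub_nonneg]
    exact_mod_cast le_max_left (k : ℕ) j
  · rw [sub_pos]
    have : ((0 : Fin (g + 1)) : ℕ) < max ((0 : Fin (g + 1)) : ℕ) j := by
      rw [Fin.val_zero]
      exact lt_max_of_lt_right hj1
    exact_mod_cast this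

theorem det_Tm_ne_zero (hg : 0 < g) {x y : ℝ} (hx : 0 < x) (hy : 0 < y) :
    (Matrix.of (Tm g x y)).det ≠ 0 := by
  have hlast : (Fin.last g : Fin (g + 1)) ≠ 0 := by
    intro h
    have := congrArg Fin.val h
    simp at this
    omega
  have htri : (Matrix.of (Tm g x y)).BlockTriangular id := by
    intro r i hir
    have hir' : i < r := hir
    have hr : r ≠ 0 := fun h => by
      rw [h] at hir'
      exact absurd hir' (Fin.not_lt_zero i)
    show Tm g x y r i = 0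
    rw [Tm, if_neg hr, lam_of_lt hir', mul_zero, mul_zero]
  rw [Matrix.det_of_isUpperTriangular htri]
  refine Finset.prod_ne_zero_iff.2 fun r _ => ?_
  show Tm g x y r r ≠ 0
  by_cases hr : r = 0
  · subst hr
    rw [Tm, if_pos rfl]
    have h1 : Fin.revPerm (0 : Fin (g + 1)) = Fin.last g := by simp
    rw [h1]
    have := lam_self_pos hlast
    positivity
  · rw [Tm, if_neg hr]
    have := lam_self_pos hr
    positivity

end limit

section family

variable {K : Type*} [Field K]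

/-- The polynomial `F = t + (t' - t) ∏_{i ≤ g} (1 - x / e^(m i))`. -/
noncomputable def Fam (e : K) (g m : ℕ) (t t' : ℤ) : K[X] :=
  C (t : K) + C ((t' : K) - t) * ∏ i : Fin (g + 1), (1 - C ((e ^ (m * (i : ℕ)))⁻¹) * X)

/-- The points `0, 1, e^m, ..., e^(m g)`. -/
def pts (e : K) (g m : ℕ) : Fin (g + 2) → K :=
  Fin.cons 0 fun i : Fin (g + 1) => e ^ (m * (i : ℕ))

/-- The leading coefficient. -/
noncomputable def lead (e : K) (g m : ℕ) (t t' : ℤ) : K :=
  ((t' : K) - t) * ∏ i : Fin (g + 1), (-(e ^ (m * (i : ℕ)))⁻¹)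

theorem fam_eq {e : K} (he : e ≠ 0) (g m : ℕ) (t t' : ℤ) : Fam e g m t t' =
    C (t : K) + C (lead e g m t t') * ∏ i : Fin (g + 1), (X - C (e ^ (m * (i : ℕ)))) := by
  unfold Fam lead
  rw [C_mul, mul_assoc, map_prod, ← Finset.prod_mul_distrib]
  congr 2
  refine Finset.prod_congr rfl fun i _ => ?_
  have h : C ((e ^ (m * (i : ℕ)))⁻¹) * C (e ^ (m * (i : ℕ))) = (1 : K[X]) := by
    rw [← C_mul, inv_mul_cancel₀ (pow_ne_zero _ he), C_1]
  rw [C_neg]
  linear_combination -h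

theorem fam_eval_zero (e : K) (g m : ℕ) (t t' : ℤ) : (Fam e g m t t').eval 0 = t' := by
  unfold Fam
  rw [eval_add, eval_C, eval_mul, eval_C, eval_prod]
  simp

theorem fam_eval_pow {e : K} (he : e ≠ 0) (g m : ℕ) (t t' : ℤ) (i : Fin (g + 1)) :
    (Fam e g m t t').eval (e ^ (m * (i : ℕ))) = t := by
  rw [fam_eq he, eval_add, eval_C, eval_mul, eval_prod,
    Finset.prod_eq_zero (Finset.mem_univ i) (by simp), mul_zero, add_zero]

theorem exists_zeta {t : ℤ} (ht : |t| ≤ 2) : ∃ (ζ : ℂ) (k : ℕ), k ≠ 0 ∧ ζ ^ k = 1 ∧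
    (t : ℂ) = ζ + ζ⁻¹ := by
  obtain ⟨w, hw⟩ := IsAlgClosed.exists_pow_nat_eq ((t : ℂ) ^ 2 / 4 - 1) (n := 2) (by norm_num)
  set ζ : ℂ := (t : ℂ) / 2 + w with hζ
  have h1 : ζ ^ 2 - t * ζ + 1 = 0 := by
    rw [hζ]
    linear_combination hw
  have h0 : ζ ≠ 0 := by
    intro h
    rw [h] at h1
    norm_num at h1
  have h2 : (t : ℂ) = ζ + ζ⁻¹ := by
    field_simp
    linear_combination -h1
  refine ⟨ζ, 12, by norm_num, ?_, h2⟩
  rw [abs_le] at ht
  obtain ⟨ht1, ht2⟩ := ht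
  clear_value ζ
  interval_cases t
  · have h3 : (ζ + 1) ^ 2 = 0 := by push_cast at h1; linear_combination h1
    have h4 : ζ = -1 := by linear_combination pow_eq_zero_iff (two_ne_zero) |>.1 h3
    rw [h4]
    norm_num
  · have h3 : ζ ^ 3 = 1 := by push_cast at h1; linear_combination (ζ - 1) * h1
    calc ζ ^ 12 = (ζ ^ 3) ^ 4 := by ring
      _ = 1 := by rw [h3, one_pow]
  · have h3 : ζ ^ 2 = -1 := by push_cast at h1; linear_combination h1
    calc ζ ^ 12 = (ζ ^ 2) ^ 6 := by ring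
      _ = 1 := by rw [h3]; norm_num
  · have h3 : ζ ^ 3 = -1 := by push_cast at h1; linear_combination (ζ + 1) * h1
    calc ζ ^ 12 = (ζ ^ 3) ^ 4 := by ring
      _ = 1 := by rw [h3]; norm_num
  · have h3 : (ζ - 1) ^ 2 = 0 := by push_cast at h1; linear_combination h1
    have h4 : ζ = 1 := by linear_combination pow_eq_zero_iff (two_ne_zero) |>.1 h3
    rw [h4]
    norm_num

theorem fam_special {e : K} (he : e ≠ 0) {g m : ℕ} {t t' : ℤ} (ht : |t| ≤ 2) (ht' : |t'| ≤ 2)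
    (s : K →+* ℂ) (i : Fin (g + 2)) : ∃ (ζ : ℂ) (k : ℕ), k ≠ 0 ∧ ζ ^ k = 1 ∧
      s ((Fam e g m t t').eval (pts e g m i)) = ζ + ζ⁻¹ := by
  unfold pts
  refine Fin.cases ?_ (fun i => ?_) i
  · rw [Fin.cons_zero, fam_eval_zero, map_intCast]
    exact exists_zeta ht'
  · rw [Fin.cons_succ, fam_eval_pow he, map_intCast]
    exact exists_zeta ht

theorem fam_special' {e : K} (he : e ≠ 0) {g m : ℕ} {t t' : ℤ} (ht : |t| ≤ 2) (ht' : |t'| ≤ 2)
    (s : K →+* ℂ) (i : Fin (g + 2)) : ∃ ζ : ℂ, ‖ζ‖ = 1 ∧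
      s ((Fam e g m t t').eval (pts e g m i)) = ζ + ζ⁻¹ := by
  obtain ⟨ζ, k, hk, h1, h2⟩ := fam_special he ht ht' s i
  refine ⟨ζ, ?_, h2⟩
  have h3 := congrArg norm h1
  rw [norm_pow, norm_one] at h3
  exact (pow_eq_one_iff_of_nonneg (norm_nonneg _) hk).1 h3

theorem fam_int {e : K} (he : IsIntegral ℤ e⁻¹) (g m : ℕ) (t t' : ℤ) (i : ℕ) :
    IsIntegral ℤ ((Fam e g m t t').coeff i) := by
  have hC : ∀ a : K, IsIntegral ℤ a → C a ∈ lifts (algebraMap (integralClosure ℤ K) K) := by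
    intro a ha
    exact (lifts_iff_coeff_lifts _).2 fun n => by
      rw [coeff_C]
      split_ifs
      · exact ⟨⟨a, ha⟩, rfl⟩
      · exact ⟨0, map_zero _⟩
  have hmem : Fam e g m t t' ∈ lifts (algebraMap (integralClosure ℤ K) K) := by
    unfold Fam
    refine (lifts _).add_mem (hC _ (isIntegral_algebraMap (R := ℤ) (x := t))) ?_
    refine (lifts _).mul_mem (hC _ ((isIntegral_algebraMap (R := ℤ) (x := t')).sub
      (isIntegral_algebraMap (R := ℤ) (x := t)))) ?_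
    refine Subsemiring.prod_mem _ fun i _ => ?_
    have h1 : (1 : K[X]) - C ((e ^ (m * (i : ℕ)))⁻¹) * X =
        C 1 + C (-(e ^ (m * (i : ℕ)))⁻¹) * X := by
      rw [C_1, C_neg]
      ring
    rw [h1]
    refine (lifts _).add_mem (hC _ isIntegral_one) ((lifts _).mul_mem (hC _ ?_) ?_)
    · rw [← inv_pow]
      exact (he.pow _).neg
    · exact ⟨X, Polynomial.map_X _⟩
  have h2 := (lifts_iff_coeff_lifts _).1 hmem i
  obtain ⟨a, ha⟩ := h2
  rw [← ha]
  exact a.2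

end family

section main

variable {K : Type*} [Field K]

theorem norm_lead {e : K} (he : e ≠ 0) (g m : ℕ) (t t' : ℤ) (s : K →+* ℂ) :
    ‖s (lead e g m t t')‖ * ∏ i : Fin (g + 1), ‖s (e ^ (m * (i : ℕ)))‖ = |((t' - t : ℤ) : ℝ)| := by
  have he' : s e ≠ 0 := (map_ne_zero s).2 he
  unfold lead
  rw [map_mul, norm_mul, map_prod, norm_prod, mul_assoc, ← Finset.prod_mul_distrib]
  have h1 : ∀ i : Fin (g + 1), ‖s (-(e ^ (m * (i : ℕ)))⁻¹)‖ * ‖s (e ^ (m * (i : ℕ)))‖ = 1 := by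
    intro i
    rw [map_neg, norm_neg, map_inv₀, norm_inv]
    refine inv_mul_cancel₀ ?_
    rw [norm_ne_zero_iff, map_pow]
    exact pow_ne_zero _ he'
  simp only [h1, Finset.prod_const_one, mul_one]
  rw [map_sub, map_intCast, map_intCast, ← Int.cast_sub, Complex.norm_intCast]

/-- For all large `m` there are `g` loops over `σ` and one loop over `τ` on which the regulators of
the `g + 1` symbols `{z, (x - e^(m i)) / x}` are linearly independent. -/
theorem exists_loops {e : K} (he : e ≠ 0) {σ τ : K →+* ℂ} (hσ : 1 < ‖σ e‖) (hτ : ‖τ e‖ < 1)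
    {g : ℕ} (hg : 0 < g) {t t' : ℤ} (ht : |t| ≤ 2) (ht' : |t'| ≤ 2) (htt : t ≠ t') :
    ∃ m₀ : ℕ, ∀ m : ℕ, m₀ ≤ m →
      (∃ ρ η, Sepd ((Fam e g m t t').map σ) (fun j : Fin (g + 1) => σ (e ^ (m * (j : ℕ)))) ρ η) ∧
      ∃ Γ : Fin (g + 1) → Torus (POpen (Fam e g m t t') (pts e g m)) 1,
        (∀ θ (y : K), (Γ 0).e θ (pcst (Fam e g m t t') (pts e g m) y) = τ y) ∧
        (∀ r : Fin g, ∀ θ (y : K), (Γ r.succ).e θ (pcst (Fam e g m t t') (pts e g m) y) = σ y) ∧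
        (Matrix.of fun r i : Fin (g + 1) =>
          (Γ r).reg (symb (pent (Fam e g m t t') (pts e g m) i.succ 0))).det ≠ 0 := by
  have hσe : σ e ≠ 0 := (map_ne_zero σ).2 he
  have hτe : τ e ≠ 0 := (map_ne_zero τ).2 he
  have hτ1 : 1 < ‖τ e‖⁻¹ := (one_lt_inv₀ (norm_pos_iff.2 hτe)).2 hτ
  set x : ℝ := Real.log ‖σ e‖ with hx
  set y : ℝ := Real.log ‖τ e‖⁻¹ with hy
  have hx0 : 0 < x := Real.log_pos hσ
  have hy0 : 0 < y := Real.log_pos hτ1
  set Cc : ℝ := 2 * π * (|Real.log (|((t' - t : ℤ) : ℝ)|)| + (g + 2) * Real.log 4) with hCc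
  obtain ⟨m₁, hm₁⟩ := eventually_det_ne_zero (Tm g x y) (det_Tm_ne_zero hg hx0 hy0) Cc
  have hlarge : ∀ a : ℝ, 1 < a → ∃ m₀ : ℕ, ∀ m : ℕ, m₀ ≤ m → (2 : ℝ) ^ (g + 6) ≤ a ^ m := by
    intro a ha
    obtain ⟨m₀, h⟩ := pow_unbounded_of_one_lt ((2 : ℝ) ^ (g + 6)) ha
    exact ⟨m₀, fun m hm => h.le.trans (pow_le_pow_right₀ ha.le hm)⟩
  obtain ⟨m₂, hm₂⟩ := hlarge _ hσ
  obtain ⟨m₃, hm₃⟩ := hlarge _ hτ1
  refine ⟨max m₁ (max m₂ m₃), fun m hm => ?_⟩
  have h1 := hm₁ m ((le_max_left _ _).trans hm)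
  have h2 := hm₂ m ((le_max_left _ _).trans ((le_max_right _ _).trans hm))
  have h3 := hm₃ m ((le_max_right _ _).trans ((le_max_right _ _).trans hm))
  have hcge : (1 : ℝ) ≤ |((t' - t : ℤ) : ℝ)| := by
    have h4 := Int.one_le_abs (sub_ne_zero.2 (Ne.symm htt) : t' - t ≠ 0)
    exact_mod_cast h4
  have hFeq := fam_eq he g m t t'
  have hb : ∀ s : K →+* ℂ, ∀ i, ∃ ζ : ℂ, ‖ζ‖ = 1 ∧
      s ((Fam e g m t t').eval ((Fin.cons 0 (fun i : Fin (g + 1) => e ^ (m * (i : ℕ))) :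
        Fin (g + 2) → K) i)) = ζ + ζ⁻¹ := fun s i => fam_special' he ht ht' s i
  -- the first place
  have ha1 : ∀ j : Fin (g + 1), ‖σ (e ^ (m * (j : ℕ)))‖ = (‖σ e‖ ^ m) ^ (j : ℕ) := by
    intro j
    rw [map_pow, norm_pow, pow_mul]
  have hT1 := exists_tori (s := σ) hFeq (κ := 1) one_ne_zero
    (a := fun j : Fin (g + 1) => σ (e ^ (m * (j : ℕ)))) (Equiv.refl _)
    (fun j => by rw [Equiv.refl_apply, one_mul]) h2 ha1 (hb σ)
    (by rw [norm_lead he]; exact hcge)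
  -- the second place
  have hκ : τ (e ^ (m * g)) ≠ 0 := by
    rw [map_pow]
    exact pow_ne_zero _ hτe
  have hperm : ∀ j : Fin (g + 1), τ (e ^ (m * ((Fin.revPerm j : Fin (g + 1)) : ℕ))) =
      τ (e ^ (m * g)) * (τ e)⁻¹ ^ (m * (j : ℕ)) := by
    intro j
    have hj : (j : ℕ) ≤ g := Nat.lt_succ_iff.1 j.2
    have e1 : ((Fin.revPerm j : Fin (g + 1)) : ℕ) = g - j := by
      rw [Fin.revPerm_apply, Fin.val_rev]
      omega
    rw [e1, map_pow, map_pow]
    have e2 : m * g = m * (g - j) + m * j := by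
      rw [← mul_add]
      congr 1
      omega
    rw [e2, pow_add, mul_assoc, inv_pow, mul_inv_cancel₀ (pow_ne_zero _ hτe), mul_one]
  have ha2 : ∀ j : Fin (g + 1), ‖(τ e)⁻¹ ^ (m * (j : ℕ))‖ = (‖τ e‖⁻¹ ^ m) ^ (j : ℕ) := by
    intro j
    rw [norm_pow, norm_inv, pow_mul]
  have hT2 := exists_tori (s := τ) hFeq hκ
    (a := fun j : Fin (g + 1) => (τ e)⁻¹ ^ (m * (j : ℕ))) Fin.revPerm hperm h3 ha2 (hb τ)
    (by rw [norm_lead he]; exact hcge)
  have hlast : (Fin.last g : Fin (g + 1)) ≠ 0 := by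
    intro h
    have := congrArg Fin.val h
    simp at this
    omega
  obtain ⟨Γ0, hΓ0, hΓ0'⟩ := hT2 (Fin.last g) hlast
  choose Γ1 hΓ1 hΓ1' using fun r : Fin g => hT1 r.succ (Fin.succ_ne_zero r)
  refine ⟨?_, Fin.cons Γ0 Γ1, fun θ y => ?_, fun r θ y => ?_, ?_⟩
  · have hlam : 1 ≤ ‖σ (lead e g m t t')‖ *
        ∏ i : Fin (g + 1), ‖σ (e ^ (m * (i : ℕ)))‖ := by
      rw [norm_lead he]
      exact hcge
    have ht2 : ‖σ (t : K)‖ ≤ 2 := by
      rw [map_intCast, Complex.norm_intCast]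
      exact_mod_cast ht
    have h4 := comp_eq hFeq (s := σ) (κ := 1)
      (a := fun j : Fin (g + 1) => σ (e ^ (m * (j : ℕ)))) (Equiv.refl _)
      (fun j => by rw [Equiv.refl_apply, one_mul])
    rw [C_1, one_mul, comp_X, one_pow, mul_one] at h4
    obtain ⟨η, h5⟩ := exists_sepd h2 ha1 ht2 hlam h4
    exact ⟨_, η, h5⟩
  · exact hΓ0 θ y
  · exact hΓ1 r θ y
  · refine h1 _ fun r i => ?_
    have hn := norm_lead he g m t t'
    refine Fin.cases ?_ (fun r => ?_) r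
    · have h4 := hΓ0' (Fin.revPerm i)
      have e1 : (Fin.revPerm (Fin.revPerm i) : Fin (g + 1)) = i := by simp
      rw [e1, hn, Real.log_pow] at h4
      have e2 : (m : ℝ) * Tm g x y 0 i =
          2 * π * ((m : ℝ) * Real.log ‖τ e‖⁻¹ * Lam (Fin.revPerm i) (Fin.last g)) := by
        rw [Tm, if_pos rfl, hy]
        ring
      rw [e2]
      exact h4
    · have h4 := hΓ1' r i
      rw [Equiv.refl_apply, hn, Real.log_pow] at h4
      have e2 : (m : ℝ) * Tm g x y r.succ i =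
          2 * π * ((m : ℝ) * Real.log ‖σ e‖ * Lam i r.succ) := by
        rw [Tm, if_neg (Fin.succ_ne_zero r), hx]
        ring
      rw [e2]
      exact h4

end main

end Pool.Agent.Y775.UG
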