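import Pool.Agent.Y775.UG.Disc
set_option autoImplicit false

/-!
The polynomials `t + λ ∏ (x - a_j)`, `|a_j| = q^j`, `|λ| ∏ |a_j| ≥ 1`, for large `q`: separation of
the components of `|F| ≤ 2`.
-/

namespace Pool.Agent.Y775.UG

open Polynomial

open Pool.Agent.TH826.UH (outer Sepd sepd_fam)

variable {g : ℕ} {q : ℝ} {a : Fin (g + 1) → ℂ}

theorem two_pow_le (hq : (2 : ℝ) ^ (g + 6) ≤ q) : 64 ≤ q := by
  refine le_trans ?_ hq
  calc (64 : ℝ) = 2 ^ 6 := by norm_num
    _ ≤ 2 ^ (g + 6) := pow_le_pow_right₀ (by norm_num) (by omega)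

/-- `q^i ≤ q^j / 64` for `i < j` -/
theorem pow_lt_pow_div (hq : 64 ≤ q) {i j : ℕ} (hij : i < j) : q ^ i ≤ q ^ j / 64 := by
  have h1 : q ^ (i + 1) ≤ q ^ j := pow_le_pow_right₀ (by linarith) hij
  have h2 : q ^ i * 64 ≤ q ^ i * q := mul_le_mul_of_nonneg_left hq (by positivity)
  rw [pow_succ] at h1
  linarith

theorem norm_sub_bounds (hq : 64 ≤ q) (ha : ∀ j : Fin (g + 1), ‖a j‖ = q ^ (j : ℕ))
    {i j : Fin (g + 1)} (hij : i ≠ j) : q ^ (max (i : ℕ) j) / 2 ≤ ‖a i - a j‖ ∧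
      ‖a i - a j‖ ≤ 2 * q ^ (max (i : ℕ) j) := by
  have key : ∀ {i j : Fin (g + 1)}, (i : ℕ) < j → q ^ (j : ℕ) / 2 ≤ ‖a i - a j‖ ∧
      ‖a i - a j‖ ≤ 2 * q ^ (j : ℕ) := by
    intro i j h
    have h1 := pow_lt_pow_div hq h
    have h2 : 0 < q ^ (j : ℕ) := by positivity
    have h3 : 0 < q ^ (i : ℕ) := by positivity
    constructor
    · have h4 := norm_sub_norm_le (a j) (a i)
      rw [ha, ha, norm_sub_rev] at h4
      linarith
    · have h4 := norm_sub_le (a i) (a j)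
      rw [ha, ha] at h4
      linarith
  rcases lt_or_gt_of_ne (fun h => hij (Fin.ext h) : (i : ℕ) ≠ j) with h | h
  · rw [max_eq_right h.le]
    exact key h
  · rw [max_eq_left h.le, norm_sub_rev]
    exact key h

theorem one_le_max {i j : Fin (g + 1)} (hij : i ≠ j) : 1 ≤ max (i : ℕ) j := by
  by_contra hcon
  push Not at hcon
  have h1 := le_max_left (i : ℕ) j
  have h2 := le_max_right (i : ℕ) j
  exact hij (Fin.ext (by omega))

theorem le_pow_of_one_le (hq : 64 ≤ q) {k : ℕ} (hk : 1 ≤ k) : q ≤ q ^ k := by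
  calc q = q ^ 1 := (pow_one q).symm
    _ ≤ q ^ k := pow_le_pow_right₀ (by linarith) hk

/-- The lower bound for the product of the distances. -/
theorem prod_ge (hq : (2 : ℝ) ^ (g + 6) ≤ q) (ha : ∀ j : Fin (g + 1), ‖a j‖ = q ^ (j : ℕ)) {x : ℂ}
    (hx : x ∈ outer a (2 ^ (g + 4))) : 8 * ∏ i, ‖a i‖ ≤ ∏ i, ‖x - a i‖ := by
  have hq64 := two_pow_le hq
  set P : ℝ := ∏ i : Fin g, ‖a i.succ‖ with hP
  have hP0 : 0 ≤ P := Finset.prod_nonneg fun i _ => norm_nonneg _
  have ha0 : ‖a 0‖ = 1 := by rw [ha]; simp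
  have hPhalf : ∏ i : Fin g, ‖a i.succ‖ / 2 = P / 2 ^ g := by
    rw [Finset.prod_div_distrib, Finset.prod_const, Finset.card_univ, Fintype.card_fin]
  rw [Fin.prod_univ_succ, Fin.prod_univ_succ, ha0, one_mul]
  by_cases hnear : ∃ k : Fin g, ‖x - a k.succ‖ ≤ ‖a k.succ‖ / 2
  · obtain ⟨k, hk⟩ := hnear
    have hak : ‖a k.succ‖ = q ^ ((k.succ : Fin (g + 1)) : ℕ) := ha _
    have hk1 : 1 ≤ ((k.succ : Fin (g + 1)) : ℕ) := by simp
    have hakq : q ≤ ‖a k.succ‖ := by rw [hak]; exact le_pow_of_one_le hq64 hk1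
    have hxn : ‖a k.succ‖ / 2 ≤ ‖x‖ := by
      have := norm_sub_norm_le (a k.succ) (a k.succ - x)
      rw [sub_sub_cancel, norm_sub_rev] at this
      linarith
    have hxn2 : ‖x‖ ≤ 3 / 2 * ‖a k.succ‖ := by
      have : ‖x‖ ≤ ‖x - a k.succ‖ + ‖a k.succ‖ := by
        have h := norm_add_le (x - a k.succ) (a k.succ)
        rwa [sub_add_cancel] at h
      linarith
    have hx0 : ‖a k.succ‖ / 4 ≤ ‖x - a 0‖ := by
      have := norm_sub_norm_le x (a 0)
      rw [ha0] at this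
      linarith
    have hothers : ∀ i : Fin g, i ≠ k → ‖a i.succ‖ / 2 ≤ ‖x - a i.succ‖ := by
      intro i hik
      by_contra hcon
      push Not at hcon
      have h1 : ‖a i.succ‖ / 2 ≤ ‖x‖ := by
        have := norm_sub_norm_le (a i.succ) (a i.succ - x)
        rw [sub_sub_cancel, norm_sub_rev] at this
        linarith
      have h2 : ‖x‖ ≤ 3 / 2 * ‖a i.succ‖ := by
        have : ‖x‖ ≤ ‖x - a i.succ‖ + ‖a i.succ‖ := by
          have h := norm_add_le (x - a i.succ) (a i.succ)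
          rwa [sub_add_cancel] at h
        linarith
      have hne : ((i.succ : Fin (g + 1)) : ℕ) ≠ ((k.succ : Fin (g + 1)) : ℕ) := fun h =>
        hik (Fin.succ_injective _ (Fin.ext h))
      have hi0 : 0 < q ^ ((i.succ : Fin (g + 1)) : ℕ) := by positivity
      have hk0 : 0 < q ^ ((k.succ : Fin (g + 1)) : ℕ) := by positivity
      rw [ha i.succ] at h1 h2
      rw [hak] at hxn hxn2
      rcases lt_or_gt_of_ne hne with h | h
      · have := pow_lt_pow_div hq64 h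
        linarith
      · have := pow_lt_pow_div hq64 h
        linarith
    set E : ℝ := ∏ i ∈ Finset.univ.erase k, ‖a i.succ‖ / 2 with hE
    have hE0 : 0 ≤ E := Finset.prod_nonneg fun i _ => by positivity
    have h1 : ‖a k.succ‖ / 2 * E = P / 2 ^ g := by
      rw [← hPhalf, hE]
      exact Finset.mul_prod_erase Finset.univ (fun i => ‖a i.succ‖ / 2) (Finset.mem_univ k)
    have h2 : 2 ^ (g + 4) * E ≤ ∏ i : Fin g, ‖x - a i.succ‖ := by
      rw [← Finset.mul_prod_erase Finset.univ (fun i => ‖x - a i.succ‖) (Finset.mem_univ k)]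
      refine mul_le_mul (hx _) ?_ hE0 (norm_nonneg _)
      exact Finset.prod_le_prod (fun i _ => by positivity) fun i hi =>
        hothers i (Finset.ne_of_mem_erase hi)
    calc 8 * P = 2 ^ (g + 3) * (P / 2 ^ g) := by
          rw [pow_add]
          field_simp
          norm_num
          ring
      _ = ‖a k.succ‖ / 4 * (2 ^ (g + 4) * E) := by
          rw [← h1, pow_succ 2 (g + 3)]
          ring
      _ ≤ ‖x - a 0‖ * ∏ i : Fin g, ‖x - a i.succ‖ :=
          mul_le_mul hx0 h2 (by positivity) (norm_nonneg _)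
  · push Not at hnear
    have h2 : P / 2 ^ g ≤ ∏ i : Fin g, ‖x - a i.succ‖ := by
      rw [← hPhalf]
      exact Finset.prod_le_prod (fun i _ => by positivity) fun i _ => (hnear i).le
    calc 8 * P ≤ 2 ^ (g + 4) * (P / 2 ^ g) := by
          rw [pow_add]
          field_simp
          norm_num
          linarith
      _ ≤ ‖x - a 0‖ * ∏ i : Fin g, ‖x - a i.succ‖ :=
          mul_le_mul (hx 0) h2 (by positivity) (norm_nonneg _)

/-- The polynomial satisfies the separation conditions. -/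
theorem exists_sepd (hq : (2 : ℝ) ^ (g + 6) ≤ q) (ha : ∀ j : Fin (g + 1), ‖a j‖ = q ^ (j : ℕ))
    {t lam : ℂ} (ht : ‖t‖ ≤ 2) (hlam : 1 ≤ ‖lam‖ * ∏ i, ‖a i‖) {F : ℂ[X]}
    (hF : F = C t + C lam * ∏ i, (X - C (a i))) : ∃ η, Sepd F a (2 ^ (g + 4)) η := by
  have hq64 := two_pow_le hq
  have hlam0 : lam ≠ 0 := by
    rintro rfl
    rw [norm_zero, zero_mul] at hlam
    linarith
  refine sepd_fam hlam0 hF (B := 8 * ∏ i, ‖a i‖) (by positivity) (fun i j hij => ?_) ht
    (fun x hx => prod_ge hq ha hx) ?_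
  · have h1 := (norm_sub_bounds hq64 ha hij).1
    have h2 := le_pow_of_one_le hq64 (one_le_max hij)
    have h3 : (2 : ℝ) ^ (g + 6) = 4 * 2 ^ (g + 4) := by
      rw [show g + 6 = g + 4 + 2 by ring, pow_add _ (g + 4) 2]
      norm_num
      ring
    linarith
  · have h1 : ‖lam‖ * (8 * ∏ i, ‖a i‖) = 8 * (‖lam‖ * ∏ i, ‖a i‖) := by ring
    rw [h1]
    linarith

end Pool.Agent.Y775.UG
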