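import Pool.Agent.Y775.UG.Est
set_option autoImplicit false

/-!
The loops on the curves `z + 1/z = F(x)` over a place, and the values of the regulators of the
symbols `{z, (x - u_i) / x}` on them up to bounded errors.
-/

namespace Pool.Agent.Y775.UG

open Polynomial

open scoped Real

open Pool.Agent.TH826.MK (KQ symb Torus circ norm_circ contDiff_circ circ_add_one)

open Pool.Agent.TH826.HD (PRing POpen pent toP pcst)

open Pool.Agent.TH826.UH (Sepd exists_radius pr NZ nz_circ pr_circ pr_const pr_mul pr_prod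
  eval_map_sub eval_fam PtS mkS mkS_reg)

section torus

variable {K : Type*} [Field K] {s : K →+* ℂ} {F : K[X]} {N : ℕ} {b : Fin N → K}

theorem exists_torus {R : ℝ} (hR : 1 < R) {κ : ℂ} {Y : ℝ → ℂ} (hY : ContDiff ℝ 2 Y)
    (hper : ∀ t, Y (t + 1) = Y t)
    (hval : ∀ t, F.eval₂ s (κ * Y t) = circ R t + (circ R t)⁻¹)
    (hb : ∀ m, ∃ ζ : ℂ, ‖ζ‖ = 1 ∧ s (F.eval (b m)) = ζ + ζ⁻¹) :
    ∃ Γ : Torus (POpen F b) 1, (∀ θ (y : K), Γ.e θ (pcst F b y) = s y) ∧
      ∀ m l, Γ.reg (symb (pent F b m l)) = pr (circ R) (fun t => κ * Y t - s (b m)) -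
        pr (circ R) (fun t => κ * Y t - s (b l)) := by
  have hR0 : 0 < R := one_pos.trans hR
  have hz := nz_circ hR0
  have hne : ∀ t m, κ * Y t ≠ s (b m) := by
    intro t m h
    obtain ⟨ζ, hζ, hζ'⟩ := hb m
    have hζ0 : ζ ≠ 0 := fun h0 => by rw [h0, norm_zero] at hζ; exact zero_ne_one hζ
    have h1 := hval t
    rw [h, Polynomial.eval₂_hom, hζ'] at h1
    have h2 := hz.ne_zero t
    have h3 : (circ R t - ζ) * (circ R t - ζ⁻¹) = 0 := by
      have h5 : circ R t * (circ R t)⁻¹ = 1 := mul_inv_cancel₀ h2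
      have h6 : ζ * ζ⁻¹ = 1 := mul_inv_cancel₀ hζ0
      linear_combination (-circ R t) * h1 - h5 + h6
    rcases mul_eq_zero.1 h3 with h4 | h4
    · have h5 := congrArg norm (sub_eq_zero.1 h4)
      rw [norm_circ hR0.le, hζ] at h5
      exact hR.ne' h5
    · have h5 := congrArg norm (sub_eq_zero.1 h4)
      rw [norm_circ hR0.le, norm_inv, hζ, inv_one] at h5
      exact hR.ne' h5
  have hP : ∀ t, PtS s F b (κ * Y t) (circ R t) := by
    intro t
    refine ⟨?_, hne t⟩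
    rw [hval t]
    have h2 : circ R t * (circ R t)⁻¹ = 1 := mul_inv_cancel₀ (hz.ne_zero t)
    linear_combination -h2
  refine ⟨mkS (contDiff_const.mul hY) (contDiff_circ R) (fun t => by rw [hper])
    (circ_add_one R) hP, fun θ y => ?_, fun m l => ?_⟩
  · exact (hP (θ 0)).evA_pcst y
  · exact mkS_reg (contDiff_const.mul hY) hz (fun t => by rw [hper]) (circ_add_one R) hP m l

end torus

section place

variable {K : Type*} [Field K] {g : ℕ}

/-- Two monic normalizations of the polynomial at a place. -/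
theorem comp_eq {s : K →+* ℂ} {F : K[X]} {t lam : K} {u : Fin (g + 1) → K}
    (hF : F = C t + C lam * ∏ i, (X - C (u i))) {κ : ℂ} {a : Fin (g + 1) → ℂ}
    (σ : Equiv.Perm (Fin (g + 1))) (hσ : ∀ j, s (u (σ j)) = κ * a j) :
    (F.map s).comp (C κ * X) = C (s t) + C (s lam * κ ^ (g + 1)) * ∏ j, (X - C (a j)) := by
  have e1 : (F.map s).comp (C κ * X) = C (s t) + C (s lam) * ∏ i, (C κ * X - C (s (u i))) := by
    rw [hF]
    simp only [Polynomial.map_add, Polynomial.map_mul, Polynomial.map_C, Polynomial.map_prod,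
      Polynomial.map_sub, Polynomial.map_X, add_comp, mul_comp, C_comp, prod_comp, sub_comp,
      X_comp]
  have e2 : ∏ i, (C κ * X - C (s (u i))) = C (κ ^ (g + 1)) * ∏ j, (X - C (a j)) := by
    rw [← Equiv.prod_comp σ]
    have e3 : ∀ j, C κ * X - C (s (u (σ j))) = C κ * (X - C (a j)) := by
      intro j
      rw [hσ j, C_mul]
      ring
    simp only [e3]
    rw [Finset.prod_mul_distrib, Finset.prod_const, Finset.card_univ, Fintype.card_fin, C_pow]
  rw [e1, e2, C_mul, mul_assoc]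

/-- The loops at a place. -/
theorem exists_tori {s : K →+* ℂ} {F : K[X]} {t lam : K} {u : Fin (g + 1) → K}
    (hF : F = C t + C lam * ∏ i, (X - C (u i))) {κ : ℂ} (hκ : κ ≠ 0) {a : Fin (g + 1) → ℂ}
    (σ : Equiv.Perm (Fin (g + 1))) (hσ : ∀ j, s (u (σ j)) = κ * a j) {q : ℝ}
    (hq : (2 : ℝ) ^ (g + 6) ≤ q) (ha : ∀ j : Fin (g + 1), ‖a j‖ = q ^ (j : ℕ))
    (hb : ∀ m, ∃ ζ : ℂ, ‖ζ‖ = 1 ∧
      s (F.eval ((Fin.cons 0 u : Fin (g + 2) → K) m)) = ζ + ζ⁻¹)
    (hc : 1 ≤ ‖s lam‖ * ∏ i, ‖s (u i)‖) :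
    ∀ j : Fin (g + 1), j ≠ 0 → ∃ Γ : Torus (POpen F (Fin.cons 0 u : Fin (g + 2) → K)) 1,
      (∀ θ (y : K), Γ.e θ (pcst F (Fin.cons 0 u : Fin (g + 2) → K) y) = s y) ∧
      ∀ i, |Γ.reg (symb (pent F (Fin.cons 0 u : Fin (g + 2) → K) (σ i).succ 0)) -
        2 * π * (Real.log q * Lam i j)| ≤
          2 * π * (|Real.log (‖s lam‖ * ∏ i, ‖s (u i)‖)| + (g + 2) * Real.log 4) := by
  obtain ⟨ζ, hζ, hζt⟩ := hb (Fin.succ 0)
  have hFt : F.eval (u 0) = t := by
    rw [hF, eval_add, eval_C, eval_mul, eval_prod,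
      Finset.prod_eq_zero (Finset.mem_univ 0) (by simp), mul_zero, add_zero]
  rw [Fin.cons_succ, hFt] at hζt
  have hnorm : ‖s lam * κ ^ (g + 1)‖ * ∏ i, ‖a i‖ = ‖s lam‖ * ∏ i, ‖s (u i)‖ := by
    have e1 : ∏ i, ‖s (u i)‖ = ∏ j, (‖κ‖ * ‖a j‖) := by
      rw [← Equiv.prod_comp σ]
      refine Finset.prod_congr rfl fun j _ => ?_
      rw [hσ j, norm_mul]
    rw [e1, Finset.prod_mul_distrib, Finset.prod_const, Finset.card_univ, Fintype.card_fin,
      norm_mul, norm_pow]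
    ring
  obtain ⟨R, hR, h⟩ := exists_fun hq ha hζ hζt (lam := s lam * κ ^ (g + 1))
    (by rw [hnorm]; exact hc) (comp_eq hF σ hσ)
  intro j hj
  obtain ⟨Y, hY, hper, hval, hest⟩ := h j hj
  have hval' : ∀ t, F.eval₂ s (κ * Y t) = circ R t + (circ R t)⁻¹ := by
    intro t
    rw [← hval t, eval_comp, eval_mul, eval_C, eval_X, eval_map]
  obtain ⟨Γ, hΓ1, hΓ2⟩ := exists_torus hR hY hper hval' hb
  refine ⟨Γ, hΓ1, fun i => ?_⟩
  have hR0 : 0 < R := one_pos.trans hR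
  have hz := nz_circ hR0
  -- the points are not met
  have hne : ∀ (m : Fin (g + 2)) (β : ℂ), s ((Fin.cons 0 u : Fin (g + 2) → K) m) = κ * β →
      NZ fun t => Y t - β := by
    intro m β hβ
    refine ⟨hY.sub contDiff_const, fun t h0 => ?_⟩
    obtain ⟨ζ, hζ, hζ'⟩ := hb m
    have hζ0 : ζ ≠ 0 := fun h0 => by rw [h0, norm_zero] at hζ; exact zero_ne_one hζ
    have h1 := hval' t
    rw [sub_eq_zero.1 h0, ← hβ, Polynomial.eval₂_hom, hζ'] at h1
    have h2 := hz.ne_zero t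
    have h3 : (circ R t - ζ) * (circ R t - ζ⁻¹) = 0 := by
      have h5 : circ R t * (circ R t)⁻¹ = 1 := mul_inv_cancel₀ h2
      have h6 : ζ * ζ⁻¹ = 1 := mul_inv_cancel₀ hζ0
      linear_combination (-circ R t) * h1 - h5 + h6
    rcases mul_eq_zero.1 h3 with h4 | h4
    · have h5 := congrArg norm (sub_eq_zero.1 h4)
      rw [norm_circ hR0.le, hζ] at h5
      exact hR.ne' h5
    · have h5 := congrArg norm (sub_eq_zero.1 h4)
      rw [norm_circ hR0.le, norm_inv, hζ, inv_one] at h5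
      exact hR.ne' h5
  have hsc : ∀ (m : Fin (g + 2)) (β : ℂ), s ((Fin.cons 0 u : Fin (g + 2) → K) m) = κ * β →
      pr (circ R) (fun t => κ * Y t - s ((Fin.cons 0 u : Fin (g + 2) → K) m)) =
        pr (circ R) (fun _ => κ) + pr (circ R) (fun t => Y t - β) := by
    intro m β hβ
    rw [← pr_mul hz ⟨contDiff_const, fun _ => hκ⟩ (hne m β hβ)]
    congr 1
    funext t
    rw [hβ]
    ring
  have h1 := hΓ2 (σ i).succ 0
  rw [hsc (σ i).succ (a i) (by rw [Fin.cons_succ]; exact hσ i),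
    hsc 0 0 (by rw [Fin.cons_zero, map_zero, mul_zero])] at h1
  have h2 := hest i
  rw [hnorm] at h2
  rw [h1]
  have e : pr (circ R) (fun _ => κ) + pr (circ R) (fun t => Y t - a i) -
      (pr (circ R) (fun _ => κ) + pr (circ R) fun t => Y t - 0) =
      pr (circ R) (fun s => Y s - a i) - pr (circ R) (fun s => Y s - 0) := by ring
  rw [e]
  exact h2

end place

end Pool.Agent.Y775.UG
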